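import Mathlib

set_option autoImplicit false

namespace Pool.Agent.Results.MP_f10132_gt.Main

open Set TopologicalSpace

universe u

def IsFil {L : Type} [Order.Frame L] (F : Set L) : Prop :=
  F.Nonempty ∧ IsUpperSet F ∧ ∀ a ∈ F, ∀ b ∈ F, ∃ c ∈ F, c ≤ a ∧ c ≤ b

def ScottOpen {L : Type} [Order.Frame L] (U : Set L) : Prop :=
  IsUpperSet U ∧ ∀ D : Set L, D.Nonempty → DirectedOn (· ≤ ·) D → sSup D ∈ U → (D ∩ U).Nonempty

def P : Type := List Bool

instance : PartialOrder P where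
  le a b := List.IsPrefix b a
  le_refl := List.prefix_refl
  le_trans _ _ _ h1 h2 := h2.trans h1
  le_antisymm _ _ h1 h2 := h2.eq_of_length_le h1.length_le

def j : Nucleus (LowerSet P) where
  toFun U := ⟨{p | (p = [] → p ∈ U) ∧ ∀ q ≤ p, ∃ r ≤ q, r ∈ U}, fun p q h1 h2 =>
    ⟨fun h => U.lower h1 (h2.1 (List.prefix_nil.1 (h ▸ h1))), fun r hr => h2.2 r (hr.trans h1)⟩⟩
  map_inf' U V := by
    refine le_antisymm (fun p hp => ⟨⟨fun h => (hp.1 h).1, fun q hq =>
      (hp.2 q hq).imp fun r hr => ⟨hr.1, hr.2.1⟩⟩, fun h => (hp.1 h).2, fun q hq =>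
      (hp.2 q hq).imp fun r hr => ⟨hr.1, hr.2.2⟩⟩)
      fun p hp => ⟨fun h => ⟨hp.1.1 h, hp.2.1 h⟩, fun q hq => ?_⟩
    obtain ⟨r, h1, h2⟩ := hp.1.2 q hq
    obtain ⟨s, h3, h4⟩ := hp.2.2 r (h1.trans hq)
    exact ⟨s, h3.trans h1, U.lower h3 h2, h4⟩
  idempotent' U p hp := ⟨fun h => (hp.1 h).1 h, fun q hq =>
    let ⟨r, h1, h2⟩ := hp.2 q hq; (h2.2 r le_rfl).imp fun _ hs => ⟨hs.1.trans h1, hs.2⟩⟩
  le_apply' U p hp := ⟨fun _ => hp, fun q hq => ⟨q, le_rfl, U.lower hq hp⟩⟩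

lemma mem_j {U : LowerSet P} {p : P} :
    p ∈ j U ↔ (p = [] → p ∈ U) ∧ ∀ q ≤ p, ∃ r ≤ q, r ∈ U := Iff.rfl

abbrev L : Type := range j

@[reducible] def c₀ (p : List Bool) : LowerSet P := ⟨{q | ¬ p <+: q ∧ ¬ List.IsPrefix q p}, fun _ _ h1 h2 =>
  ⟨fun h => (List.prefix_or_prefix_of_prefix h1 h).elim h2.2 h2.1, fun h => h2.2 (List.IsPrefix.trans h1 h)⟩⟩

def c (p : List Bool) : L := j.restrict (c₀ p)

lemma top_iff (a : L) : a = ⊤ ↔ ([] : P) ∈ a.1 :=
  ⟨fun h => by rw [h]; trivial, fun h => top_unique fun p _ => a.1.lower List.nil_prefix h⟩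

lemma mem_sup (D : Set L) (p : P) : p ∈ (sSup D).1 ↔ (p = [] → ∃ a ∈ D, p ∈ a.1) ∧
    ∀ q ≤ p, ∃ r ≤ q, ∃ a ∈ D, r ∈ a.1 := by
  have : (sSup D).1 = j (sSup (Subtype.val '' D)) := rfl
  rw [this, mem_j]
  simp

lemma key {F : Set L} (h1 : IsFil F) (h2 : ScottOpen F) : F = {⊤} ∨ F = univ := by
  by_contra h
  rw [not_or] at h
  have h3 : ⊥ ∉ F := fun h3 => h.2 (eq_univ_of_forall fun a => h2.1 bot_le h3)
  obtain ⟨a, h4, h5⟩ : ∃ a ∈ F, a ≠ ⊤ := by
    by_contra h4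
    push Not at h4
    exact h.1 (h1.1.subset_singleton_iff.1 h4)
  have h6 : ∀ p : {p : List Bool // c p ∉ F}, ∃ (q : {p : List Bool // c p ∉ F}) (b : Bool),
      q.1 = p.1 ++ [b] := by
    rintro ⟨p, hp⟩
    by_contra h6
    push Not at h6
    have h7 : ∀ b : Bool, c (p ++ [b]) ∈ F := fun b => by
      by_contra h7
      exact h6 ⟨_, h7⟩ b rfl
    obtain ⟨d, h8, h9, h10⟩ := h1.2.2 _ (h7 true) _ (h7 false)
    refine hp (h2.1 ((le_inf h9 h10).trans ?_) h8)
    refine (map_inf j.restrict _ _).ge.trans (OrderHomClass.mono j.restrict fun q hq => ?_)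
    replace hq : q ∈ c₀ (p ++ [true]) ∧ q ∈ c₀ (p ++ [false]) := hq
    refine ⟨?_, fun h => hq.1.2 (h.trans (List.prefix_append _ _))⟩
    rintro ⟨_ | ⟨_ | _, t⟩, rfl⟩
    · exact hq.1.2 (by simp)
    · exact hq.2.1 ⟨t, by simp⟩
    · exact hq.1.1 ⟨t, by simp⟩
  choose nx b hb using h6
  let s : ℕ → {p : List Bool // c p ∉ F} := fun n => nx^[n] ⟨[], fun h => h3 (h2.1
    ((OrderHomClass.mono j.restrict (show c₀ [] ≤ ⊥ from fun q hq => hq.1 List.nil_prefix)).trans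
      (map_bot j.restrict).le) h)⟩
  have e : ∀ n, (s (n + 1)).1 = (s n).1 ++ [b (s n)] := fun n => by
    rw [← hb]
    exact congrArg _ (Function.iterate_succ_apply' _ _ _)
  have e1 : ∀ n, List.length (s n).1 = n := fun n => by
    induction n with
    | zero => rfl
    | succ n ih => rw [e, List.length_append, ih]; rfl
  have h7 : Monotone fun n => c (s n).1 := monotone_nat_of_le_succ fun n => by
    refine OrderHomClass.mono j.restrict fun q hq => ?_
    rw [e]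
    exact ⟨fun h => hq.1 ((List.prefix_append _ _).trans h), fun h =>
      (List.prefix_or_prefix_of_prefix h (List.prefix_append _ _)).elim hq.2 hq.1⟩
  obtain ⟨_, ⟨n, rfl⟩, h8⟩ := h2.2 _ (range_nonempty _) h7.directed_le.directedOn_range
    (h2.1 (show a ≤ _ from fun p hp => (mem_sup _ p).2
      ⟨fun h => absurd ((top_iff a).2 (h ▸ hp)) h5, fun (q : List Bool) _ => by
        let n := List.length q
        refine ⟨q ++ [!b (s n)], List.prefix_append _ _, _, ⟨n + 1, rfl⟩, j.le_apply ?_⟩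
        have h9 : q ++ [!b (s n)] ≠ (s (n + 1)).1 := fun h => by
          rw [e] at h
          simpa using (List.append_inj' h rfl).2
        have h10 : List.length (q ++ [!b (s n)]) = List.length (s (n + 1)).1 := by simp [e1, n]
        exact ⟨fun h => h9 (h.eq_of_length h10.symm).symm, fun h => h9 (h.eq_of_length h10)⟩⟩) h4)
  exact (s n).2 h8

theorem result : ∃ (L : Type) (_ : Order.Frame L),
    (∀ F G : Set L, IsFil F → ScottOpen F → IsFil G → ScottOpen G →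
      ScottOpen (image2 (· ⊓ ·) F G)) ∧ ScottOpen ({⊤} : Set L) ∧
    ∀ (X : Type u) [TopologicalSpace X], IsEmpty (L ≃o Opens X) := by
  refine ⟨L, inferInstance, fun F G h1 h2 h3 h4 => ?_, ⟨fun _ _ h h' => top_unique (h'.ge.trans h), fun D _ _ h => ?_⟩,
    fun X _ => ⟨fun e => ?_⟩⟩
  · rcases key h1 h2 with rfl | rfl
    · simpa using h4
    · rcases key h3 h4 with rfl | rfl
      · simpa using h2
      · rwa [eq_univ_of_forall fun a => mem_image2.2 ⟨a, mem_univ a, a, mem_univ a, inf_idem a⟩]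
  · obtain ⟨a, h1, h2⟩ := ((mem_sup D []).1 ((top_iff _).1 h)).1 rfl
    exact ⟨a, h1, (top_iff a).2 h2⟩
  · have h1 : c [true] ≠ ⊤ := fun h => ((mem_j.1 ((top_iff _).1 h)).1 rfl).2 List.nil_prefix
    have h2 : c [true] ≠ ⊥ := fun h => by
      have : ([false] : P) ∈ (c [true]).1 := j.le_apply ⟨by decide, by decide⟩
      rw [h, ← map_bot j.restrict] at this
      obtain ⟨r, -, h⟩ := (mem_j.1 this).2 _ le_rfl
      exact h
    obtain ⟨x, hx⟩ := (Opens.ne_bot_iff_nonempty _).1 (e.map_bot ▸ e.injective.ne h2)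
    rcases key (F := {a | x ∈ e a}) ⟨⟨_, hx⟩, fun a b h h' => e.monotone h h',
      fun a ha b hb => ⟨a ⊓ b, by simpa using ⟨ha, hb⟩, inf_le_left, inf_le_right⟩⟩
      ⟨fun a b h h' => e.monotone h h', fun D _ _ h => by
        simpa only [e.map_sSup, Set.Nonempty, mem_inter_iff, mem_ofPred_eq, Opens.mem_iSup,
          exists_prop] using h⟩ with h | h
    · exact h1 (h.le hx)
    · simpa using h.ge (mem_univ ⊥)

end Pool.Agent.Results.MP_f10132_gt.Main
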